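import Mathlib

/-!
# The binary partition function as a subsequence of a nested recurrence

The recurrence `w n = ∑ w (n - w (n - u)) + w (n - 8)`, `u ∈ {1, 5, 9, 13, 2}`, with `w m = 0` for
`m < 0`, has a solution (for `n ≥ 140`) with `w (4 a) = 1`, `w (4 a + 1) = 4 ⌈a / 2⌉` (`a ≥ 1`),
`w (4 a + 3) = bin a`, while `w (4 a + 2)` is large.
-/

set_option autoImplicit false

namespace Pool.Agent.Results.MP_4e7634_nt.BinarySubsequence

/-- The number of the partitions of `n` into powers of `2`. -/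
noncomputable def bin (n : ℕ) : ℕ := Nat.card {p : n.Partition // ∀ x ∈ p.parts, ∃ i, x = 2 ^ i}

/-- The term `w m` for an integer `m`, which is read as `c` for `m < 0`. -/
def ext (c : ℕ) (w : ℕ → ℕ) (m : ℤ) : ℕ := if 0 ≤ m then w m.toNat else c

/-- `w` is a sequence of positive integers with
`w n = ∑ i, w (n - w (n - u i)) + ∑ j, w (n - v j)` for all `n ≥ k`, where every term with a
negative index is read as `c`. -/
def IsSolution {p q : ℕ} (u : Fin p → ℕ) (v : Fin q → ℕ) (c k : ℕ) (w : ℕ → ℕ) : Prop :=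
  (∀ n, 0 < w n) ∧ ∀ n : ℕ, k ≤ n →
    w n = ∑ i, ext c w ((n : ℤ) - (ext c w ((n : ℤ) - (u i : ℤ)) : ℤ)) +
      ∑ j, ext c w ((n : ℤ) - (v j : ℤ))

/-! ### The recurrence of the binary partition function -/

/-- The multisets of powers of `2` with sum `n`. -/
def S (n : ℕ) : Set (Multiset ℕ) := {s | (∀ x ∈ s, ∃ i, x = 2 ^ i) ∧ s.sum = n}

lemma S_finite (n : ℕ) : (S n).Finite := by
  apply Set.Finite.subset (Set.finite_range (fun p : n.Partition => p.parts))
  rintro s ⟨h1, h2⟩
  refine ⟨⟨s, ?_, h2⟩, rfl⟩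
  intro i hi
  obtain ⟨j, rfl⟩ := h1 i hi
  positivity

lemma bin_eq (n : ℕ) : bin n = (S n).ncard := by
  unfold bin
  rw [← Nat.card_coe_set_eq]
  apply Nat.card_congr
  refine ⟨fun p => ⟨p.1.parts, p.2, p.1.parts_sum⟩, fun s => ⟨⟨s.1, ?_, s.2.2⟩, s.2.1⟩, ?_, ?_⟩
  · intro i hi
    obtain ⟨j, rfl⟩ := s.2.1 i hi
    positivity
  · intro p
    rfl
  · intro s
    rfl

/-- The members of `S n` which do not contain `1`. -/
def T (n : ℕ) : Set (Multiset ℕ) := {s | s ∈ S n ∧ 1 ∉ s}

lemma T_odd (m : ℕ) : T (2 * m + 1) = ∅ := by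
  rw [Set.eq_empty_iff_forall_notMem]
  rintro s ⟨⟨h1, h2⟩, h3⟩
  have : 2 ∣ s.sum := by
    apply Multiset.dvd_sum
    intro x hx
    obtain ⟨i, rfl⟩ := h1 x hx
    have hi : i ≠ 0 := by
      rintro rfl
      exact h3 hx
    exact dvd_pow_self 2 hi
  rw [h2] at this
  omega

lemma sum_two (s : Multiset ℕ) : (s.map (fun x => 2 * x)).sum = 2 * s.sum := by
  induction s using Multiset.induction_on with
  | empty => rfl
  | cons a s ih => rw [Multiset.map_cons, Multiset.sum_cons, Multiset.sum_cons, ih]; ring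

lemma T_even (m : ℕ) : T (2 * m) = (fun s : Multiset ℕ => s.map (fun x => 2 * x)) '' S m := by
  ext s
  constructor
  · rintro ⟨⟨h1, h2⟩, h3⟩
    have h4 : ∀ x ∈ s, 2 * (x / 2) = x := by
      intro x hx
      obtain ⟨i, rfl⟩ := h1 x hx
      have hi : i ≠ 0 := by
        rintro rfl
        exact h3 hx
      exact Nat.mul_div_cancel' (dvd_pow_self 2 hi)
    have h5 : (s.map (fun x => x / 2)).map (fun x => 2 * x) = s := by
      rw [Multiset.map_map]
      conv_rhs => rw [← Multiset.map_id s]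
      apply Multiset.map_congr rfl
      intro x hx
      exact h4 x hx
    refine ⟨s.map (fun x => x / 2), ⟨?_, ?_⟩, h5⟩
    · intro x hx
      obtain ⟨y, hy, rfl⟩ := Multiset.mem_map.1 hx
      obtain ⟨i, rfl⟩ := h1 y hy
      have hi : i ≠ 0 := by
        rintro rfl
        exact h3 hy
      obtain ⟨j, rfl⟩ := Nat.exists_eq_succ_of_ne_zero hi
      exact ⟨j, by rw [pow_succ]; omega⟩
    · have h6 : ((s.map (fun x => x / 2)).map (fun x => 2 * x)).sum =
          2 * (s.map (fun x => x / 2)).sum := sum_two _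
      rw [h5, h2] at h6
      omega
  · rintro ⟨r, ⟨h1, h2⟩, rfl⟩
    refine ⟨⟨?_, ?_⟩, ?_⟩
    · intro x hx
      obtain ⟨y, hy, rfl⟩ := Multiset.mem_map.1 hx
      obtain ⟨i, rfl⟩ := h1 y hy
      exact ⟨i + 1, by rw [pow_succ]; ring⟩
    · show (r.map (fun x => 2 * x)).sum = 2 * m
      rw [← h2]
      exact sum_two _
    · intro hx
      obtain ⟨y, hy, h3⟩ := Multiset.mem_map.1 hx
      omega

lemma S_succ (n : ℕ) : S (n + 1) = (fun s : Multiset ℕ => 1 ::ₘ s) '' S n ∪ T (n + 1) := by
  ext s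
  constructor
  · intro hs
    by_cases h : 1 ∈ s
    · left
      obtain ⟨r, rfl⟩ := Multiset.exists_cons_of_mem h
      refine ⟨r, ⟨fun x hx => hs.1 x (Multiset.mem_cons_of_mem hx), ?_⟩, rfl⟩
      have := hs.2
      rw [Multiset.sum_cons] at this
      omega
    · right
      exact ⟨hs, h⟩
  · rintro (⟨r, hr, rfl⟩ | h)
    · refine ⟨?_, ?_⟩
      · intro x hx
        rcases Multiset.mem_cons.1 hx with rfl | hx
        · exact ⟨0, rfl⟩
        · exact hr.1 x hx
      · show (1 ::ₘ r).sum = n + 1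
        rw [Multiset.sum_cons, hr.2, Nat.add_comm]
    · exact h.1

lemma bin_zero : bin 0 = 1 := by
  rw [bin_eq]
  have : S 0 = {0} := by
    ext s
    constructor
    · rintro ⟨h1, h2⟩
      rw [Set.mem_singleton_iff, Multiset.eq_zero_iff_forall_notMem]
      intro x hx
      obtain ⟨i, rfl⟩ := h1 x hx
      have := Multiset.single_le_sum (fun _ _ => Nat.zero_le _) _ hx
      have hp : 0 < 2 ^ i := by positivity
      omega
    · rintro rfl
      exact ⟨fun x hx => absurd hx (Multiset.notMem_zero x), rfl⟩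
  rw [this, Set.ncard_singleton]

lemma bin_succ (n : ℕ) : bin (n + 1) = bin n + (T (n + 1)).ncard := by
  have hd : Disjoint ((fun s : Multiset ℕ => 1 ::ₘ s) '' S n) (T (n + 1)) := by
    rw [Set.disjoint_left]
    rintro _ ⟨r, -, rfl⟩ h
    exact h.2 (Multiset.mem_cons_self 1 r)
  have hi : Function.Injective (fun s : Multiset ℕ => 1 ::ₘ s) := fun a b h =>
    (Multiset.cons_inj_right 1).1 h
  rw [bin_eq, bin_eq, S_succ, Set.ncard_union_eq hd ((S_finite n).image _)
    ((S_finite (n + 1)).subset fun s hs => hs.1), Set.ncard_image_of_injective _ hi]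

lemma bin_odd (m : ℕ) : bin (2 * m + 1) = bin (2 * m) := by
  rw [bin_succ, T_odd, Set.ncard_empty, Nat.add_zero]

lemma bin_even (m : ℕ) : bin (2 * m + 2) = bin (2 * m + 1) + bin (m + 1) := by
  rw [show 2 * m + 2 = (2 * m + 1) + 1 by ring, bin_succ,
    show 2 * m + 1 + 1 = 2 * (m + 1) by ring, T_even, Set.ncard_image_of_injective, ← bin_eq]
  exact Multiset.map_injective fun a b h => by
    have h' : 2 * a = 2 * b := h
    omega

lemma bin_rec (n : ℕ) (hn : 2 ≤ n) : bin n = bin (n - 2) + bin (n / 2) := by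
  rcases Nat.even_or_odd' n with ⟨m, rfl | rfl⟩
  · obtain ⟨q, rfl⟩ : ∃ q, m = q + 1 := ⟨m - 1, by omega⟩
    rw [show 2 * (q + 1) = 2 * q + 2 by ring, bin_even, bin_odd]
    congr 2
    omega
  · obtain ⟨q, rfl⟩ : ∃ q, m = q + 1 := ⟨m - 1, by omega⟩
    rw [bin_odd, show 2 * (q + 1) = 2 * q + 2 by ring, bin_even,
      show 2 * q + 2 + 1 - 2 = 2 * q + 1 by omega]
    congr 2
    omega

lemma bin_values : 10 ≤ bin 8 ∧ 10 ≤ bin 9 ∧ 144 ≤ bin 31 ∧ 148 ≤ bin 32 := by
  have h0 : bin 0 = 1 := bin_zero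
  have h1 : bin 1 = 1 := (bin_odd 0).trans h0
  have h2 : bin 2 = 2 := by
    have := bin_rec 2 (by norm_num)
    norm_num at this
    omega
  have h3 : bin 3 = 2 := by
    have := bin_rec 3 (by norm_num)
    norm_num at this
    omega
  have h4 : bin 4 = 4 := by
    have := bin_rec 4 (by norm_num)
    norm_num at this
    omega
  have h5 : bin 5 = 4 := by
    have := bin_rec 5 (by norm_num)
    norm_num at this
    omega
  have h6 : bin 6 = 6 := by
    have := bin_rec 6 (by norm_num)
    norm_num at this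
    omega
  have h7 : bin 7 = 6 := by
    have := bin_rec 7 (by norm_num)
    norm_num at this
    omega
  have h8 : bin 8 = 10 := by
    have := bin_rec 8 (by norm_num)
    norm_num at this
    omega
  have h9 : bin 9 = 10 := by
    have := bin_rec 9 (by norm_num)
    norm_num at this
    omega
  have h10 : bin 10 = 14 := by
    have := bin_rec 10 (by norm_num)
    norm_num at this
    omega
  have h11 : bin 11 = 14 := by
    have := bin_rec 11 (by norm_num)
    norm_num at this
    omega
  have h12 : bin 12 = 20 := by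
    have := bin_rec 12 (by norm_num)
    norm_num at this
    omega
  have h13 : bin 13 = 20 := by
    have := bin_rec 13 (by norm_num)
    norm_num at this
    omega
  have h14 : bin 14 = 26 := by
    have := bin_rec 14 (by norm_num)
    norm_num at this
    omega
  have h15 : bin 15 = 26 := by
    have := bin_rec 15 (by norm_num)
    norm_num at this
    omega
  have h16 : bin 16 = 36 := by
    have := bin_rec 16 (by norm_num)
    norm_num at this
    omega
  have h17 : bin 17 = 36 := by
    have := bin_rec 17 (by norm_num)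
    norm_num at this
    omega
  have h18 : bin 18 = 46 := by
    have := bin_rec 18 (by norm_num)
    norm_num at this
    omega
  have h19 : bin 19 = 46 := by
    have := bin_rec 19 (by norm_num)
    norm_num at this
    omega
  have h20 : bin 20 = 60 := by
    have := bin_rec 20 (by norm_num)
    norm_num at this
    omega
  have h21 : bin 21 = 60 := by
    have := bin_rec 21 (by norm_num)
    norm_num at this
    omega
  have h22 : bin 22 = 74 := by
    have := bin_rec 22 (by norm_num)
    norm_num at this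
    omega
  have h23 : bin 23 = 74 := by
    have := bin_rec 23 (by norm_num)
    norm_num at this
    omega
  have h24 : bin 24 = 94 := by
    have := bin_rec 24 (by norm_num)
    norm_num at this
    omega
  have h25 : bin 25 = 94 := by
    have := bin_rec 25 (by norm_num)
    norm_num at this
    omega
  have h26 : bin 26 = 114 := by
    have := bin_rec 26 (by norm_num)
    norm_num at this
    omega
  have h27 : bin 27 = 114 := by
    have := bin_rec 27 (by norm_num)
    norm_num at this
    omega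
  have h28 : bin 28 = 140 := by
    have := bin_rec 28 (by norm_num)
    norm_num at this
    omega
  have h29 : bin 29 = 140 := by
    have := bin_rec 29 (by norm_num)
    norm_num at this
    omega
  have h30 : bin 30 = 166 := by
    have := bin_rec 30 (by norm_num)
    norm_num at this
    omega
  have h31 : bin 31 = 166 := by
    have := bin_rec 31 (by norm_num)
    norm_num at this
    omega
  have h32 : bin 32 = 202 := by
    have := bin_rec 32 (by norm_num)
    norm_num at this
    omega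
  omega

lemma bin_ge_ten (n : ℕ) (hn : 8 ≤ n) : 10 ≤ bin n := by
  induction n using Nat.strong_induction_on with
  | _ n ih =>
    obtain ⟨h8, h9, -, -⟩ := bin_values
    rcases Nat.lt_or_ge n 10 with h | h
    · have : n = 8 ∨ n = 9 := by omega
      rcases this with rfl | rfl
      · exact h8
      · exact h9
    · have h1 := bin_rec n (by omega)
      have h2 := ih (n - 2) (by omega) (by omega)
      omega

lemma bin_large (n : ℕ) (hn : 31 ≤ n) : 4 * n + 20 ≤ bin n := by
  induction n using Nat.strong_induction_on with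
  | _ n ih =>
    obtain ⟨-, -, h31, h32⟩ := bin_values
    rcases Nat.lt_or_ge n 33 with h | h
    · have : n = 31 ∨ n = 32 := by omega
      rcases this with rfl | rfl
      · omega
      · omega
    · have h1 := bin_rec n (by omega)
      have h2 := ih (n - 2) (by omega) (by omega)
      have h3 := bin_ge_ten (n / 2) (by omega)
      omega

lemma bin_pos (n : ℕ) : 0 < bin n := by
  induction n using Nat.strong_induction_on with
  | _ n ih =>
    rcases Nat.lt_or_ge n 2 with h | h
    · have : n = 0 ∨ n = 1 := by omega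
      rcases this with rfl | rfl
      · rw [bin_zero]; norm_num
      · rw [show bin 1 = bin 0 from bin_odd 0, bin_zero]; norm_num
    · have h1 := bin_rec n h
      have h2 := ih (n - 2) (by omega)
      omega

/-! ### The solution -/

/-- The large terms, with the indices `4 a + 2`. -/
def gam (a : ℕ) : ℕ :=
  if a < 35 then 1000 else
    gam (a - 2) + gam (a - (a + 1) / 2) + gam (a - a / 2) + gam (a - (a - 1) / 2) +
      gam (a - (a - 2) / 2) + 4 * ((a + 1) / 2)
termination_by a
decreasing_by all_goals omega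

lemma gam_rec (a : ℕ) (ha : 35 ≤ a) : gam a = gam (a - 2) + gam (a - (a + 1) / 2) +
    gam (a - a / 2) + gam (a - (a - 1) / 2) + gam (a - (a - 2) / 2) + 4 * ((a + 1) / 2) := by
  rw [gam, if_neg (by omega)]

lemma gam_large (a : ℕ) : 4 * a + 100 ≤ gam a := by
  induction a using Nat.strong_induction_on with
  | _ a ih =>
    rcases Nat.lt_or_ge a 35 with h | h
    · rw [gam, if_pos h]; omega
    · have h1 := gam_rec a h
      have h2 := ih (a - 2) (by omega)
      have h3 := ih (a - a / 2) (by omega)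
      omega

/-- The solution. -/
noncomputable def w (n : ℕ) : ℕ :=
  if n % 4 = 0 then 1
  else if n % 4 = 1 then (if n = 1 then 1 else 4 * ((n / 4 + 1) / 2))
  else if n % 4 = 2 then gam (n / 4)
  else bin (n / 4)

lemma w0 (a : ℕ) : w (4 * a) = 1 := by
  unfold w; rw [if_pos (by omega)]

lemma w1 (a : ℕ) (ha : 1 ≤ a) : w (4 * a + 1) = 4 * ((a + 1) / 2) := by
  unfold w
  rw [if_neg (by omega), if_pos (by omega), if_neg (by omega)]
  congr 3
  omega

lemma w2 (a : ℕ) : w (4 * a + 2) = gam a := by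
  unfold w
  rw [if_neg (by omega), if_neg (by omega), if_pos (by omega)]
  congr 1
  omega

lemma w3 (a : ℕ) : w (4 * a + 3) = bin a := by
  unfold w
  rw [if_neg (by omega), if_neg (by omega), if_neg (by omega)]
  congr 1
  omega

lemma w_pos (n : ℕ) : 0 < w n := by
  unfold w
  split_ifs with h1 h2 h3 h4
  · norm_num
  · norm_num
  · omega
  · have := gam_large (n / 4)
    omega
  · exact bin_pos _

lemma ext_nat (m : ℕ) : ext 0 w (m : ℤ) = w m := by
  unfold ext
  rw [if_pos (by positivity)]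
  simp

/-- The term with the inner index `n - u` if the inner value is at most `n`. -/
lemma ext_small {n u x : ℕ} (hu : u ≤ n) (hx : w (n - u) = x) (hxn : x ≤ n) :
    ext 0 w ((n : ℤ) - (ext 0 w ((n : ℤ) - (u : ℤ)) : ℤ)) = w (n - x) := by
  rw [← Nat.cast_sub hu, ext_nat, hx, ← Nat.cast_sub hxn, ext_nat]

/-- The term with the inner index `n - u` if the inner value is larger than `n`. -/
lemma ext_big {n u : ℕ} (hu : u ≤ n) (hx : n < w (n - u)) :
    ext 0 w ((n : ℤ) - (ext 0 w ((n : ℤ) - (u : ℤ)) : ℤ)) = 0 := by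
  rw [← Nat.cast_sub hu, ext_nat]
  unfold ext
  rw [if_neg (by omega)]

lemma w_rec (n : ℕ) (hn : 140 ≤ n) :
    w n = (∑ i : Fin 5, ext 0 w ((n : ℤ) -
      (ext 0 w ((n : ℤ) - ((![1, 5, 9, 13, 2] : Fin 5 → ℕ) i : ℤ)) : ℤ))) +
      ∑ j : Fin 1, ext 0 w ((n : ℤ) - ((![8] : Fin 1 → ℕ) j : ℤ)) := by
  have hlin : ext 0 w ((n : ℤ) - ((8 : ℕ) : ℤ)) = w (n - 8) := by
    rw [← Nat.cast_sub (by omega), ext_nat]
  have hsum : (∑ i : Fin 5, ext 0 w ((n : ℤ) -
      (ext 0 w ((n : ℤ) - ((![1, 5, 9, 13, 2] : Fin 5 → ℕ) i : ℤ)) : ℤ))) =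
      ext 0 w ((n : ℤ) - (ext 0 w ((n : ℤ) - ((1 : ℕ) : ℤ)) : ℤ)) +
      ext 0 w ((n : ℤ) - (ext 0 w ((n : ℤ) - ((5 : ℕ) : ℤ)) : ℤ)) +
      ext 0 w ((n : ℤ) - (ext 0 w ((n : ℤ) - ((9 : ℕ) : ℤ)) : ℤ)) +
      ext 0 w ((n : ℤ) - (ext 0 w ((n : ℤ) - ((13 : ℕ) : ℤ)) : ℤ)) +
      ext 0 w ((n : ℤ) - (ext 0 w ((n : ℤ) - ((2 : ℕ) : ℤ)) : ℤ)) := by
    simp only [Fin.sum_univ_succ, Fin.sum_univ_zero, Matrix.cons_val_zero, Matrix.cons_val_succ]
    ring
  have hsum1 : ∑ j : Fin 1, ext 0 w ((n : ℤ) - ((![8] : Fin 1 → ℕ) j : ℤ)) = w (n - 8) := by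
    rw [← hlin]
    simp
  rw [hsum, hsum1]
  obtain ⟨a, r, hr, rfl⟩ : ∃ a r, r < 4 ∧ n = 4 * a + r :=
    ⟨n / 4, n % 4, Nat.mod_lt _ (by norm_num), (Nat.div_add_mod n 4).symm⟩
  have ha : 35 ≤ a := by omega
  have hr' : r = 0 ∨ r = 1 ∨ r = 2 ∨ r = 3 := by omega
  rcases hr' with rfl | rfl | rfl | rfl
  · -- `n = 4 a`: all the inner values are large
    have hb : ∀ i : ℕ, 1 ≤ i → i ≤ 4 → 4 * a + 0 < w (4 * a + 0 - (4 * i - 3)) := by
      intro i h1 h2
      rw [show 4 * a + 0 - (4 * i - 3) = 4 * (a - i) + 3 by omega, w3]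
      have := bin_large (a - i) (by omega)
      omega
    have hg : 4 * a + 0 < w (4 * a + 0 - 2) := by
      rw [show 4 * a + 0 - 2 = 4 * (a - 1) + 2 by omega, w2]
      have := gam_large (a - 1)
      omega
    rw [ext_big (by omega) (hb 1 (by norm_num) (by norm_num)),
      ext_big (by omega) (hb 2 (by norm_num) (by norm_num)),
      ext_big (by omega) (hb 3 (by norm_num) (by norm_num)),
      ext_big (by omega) (hb 4 (by norm_num) (by norm_num)),
      ext_big (by omega) hg]
    rw [Nat.add_zero, w0, show 4 * a - 8 = 4 * (a - 2) by omega, w0]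
  · -- `n = 4 a + 1`
    have hb : ∀ i : ℕ, 1 ≤ i → i ≤ 4 → w (4 * a + 1 - (4 * i - 3)) = 1 := by
      intro i h1 h2
      rw [show 4 * a + 1 - (4 * i - 3) = 4 * (a - i + 1) by omega, w0]
    have hg : 4 * a + 1 < w (4 * a + 1 - 2) := by
      rw [show 4 * a + 1 - 2 = 4 * (a - 1) + 3 by omega, w3]
      have := bin_large (a - 1) (by omega)
      omega
    rw [ext_small (by omega) (hb 1 (by norm_num) (by norm_num)) (by omega),
      ext_small (by omega) (hb 2 (by norm_num) (by norm_num)) (by omega),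
      ext_small (by omega) (hb 3 (by norm_num) (by norm_num)) (by omega),
      ext_small (by omega) (hb 4 (by norm_num) (by norm_num)) (by omega),
      ext_big (by omega) hg]
    rw [show 4 * a + 1 - 1 = 4 * a by omega, w0, w1 a (by omega),
      show 4 * a + 1 - 8 = 4 * (a - 2) + 1 by omega, w1 (a - 2) (by omega)]
    omega
  · -- `n = 4 a + 2`
    have hb : ∀ i : ℕ, 1 ≤ i → i ≤ 4 →
        w (4 * a + 2 - (4 * i - 3)) = 4 * ((a - i + 2) / 2) := by
      intro i h1 h2
      rw [show 4 * a + 2 - (4 * i - 3) = 4 * (a - i + 1) + 1 by omega, w1 _ (by omega)]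
    have hg : w (4 * a + 2 - 2) = 1 := by
      rw [show 4 * a + 2 - 2 = 4 * a by omega, w0]
    rw [ext_small (by omega) (hb 1 (by norm_num) (by norm_num)) (by omega),
      ext_small (by omega) (hb 2 (by norm_num) (by norm_num)) (by omega),
      ext_small (by omega) (hb 3 (by norm_num) (by norm_num)) (by omega),
      ext_small (by omega) (hb 4 (by norm_num) (by norm_num)) (by omega),
      ext_small (by omega) hg (by omega)]
    rw [show 4 * a + 2 - 4 * ((a - 1 + 2) / 2) = 4 * (a - (a + 1) / 2) + 2 by omega,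
      show 4 * a + 2 - 4 * ((a - 2 + 2) / 2) = 4 * (a - a / 2) + 2 by omega,
      show 4 * a + 2 - 4 * ((a - 3 + 2) / 2) = 4 * (a - (a - 1) / 2) + 2 by omega,
      show 4 * a + 2 - 4 * ((a - 4 + 2) / 2) = 4 * (a - (a - 2) / 2) + 2 by omega,
      show 4 * a + 2 - 1 = 4 * a + 1 by omega, w1 a (by omega),
      show 4 * a + 2 - 8 = 4 * (a - 2) + 2 by omega, w2, w2, w2, w2, w2, w2, gam_rec a ha]
    ring
  · -- `n = 4 a + 3`
    have hb : ∀ i : ℕ, 1 ≤ i → i ≤ 4 → 4 * a + 3 < w (4 * a + 3 - (4 * i - 3)) := by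
      intro i h1 h2
      rw [show 4 * a + 3 - (4 * i - 3) = 4 * (a - i + 1) + 2 by omega, w2]
      have := gam_large (a - i + 1)
      omega
    have hg : w (4 * a + 3 - 2) = 4 * ((a + 1) / 2) := by
      rw [show 4 * a + 3 - 2 = 4 * a + 1 by omega, w1 a (by omega)]
    rw [ext_big (by omega) (hb 1 (by norm_num) (by norm_num)),
      ext_big (by omega) (hb 2 (by norm_num) (by norm_num)),
      ext_big (by omega) (hb 3 (by norm_num) (by norm_num)),
      ext_big (by omega) (hb 4 (by norm_num) (by norm_num)),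
      ext_small (by omega) hg (by omega)]
    rw [show 4 * a + 3 - 4 * ((a + 1) / 2) = 4 * (a / 2) + 3 by omega,
      show 4 * a + 3 - 8 = 4 * (a - 2) + 3 by omega, w3, w3, w3, bin_rec a (by omega)]
    ring

/-- There are positive integers `u 0, …, u (p - 1)` (even distinct) and `v 0, …, v (q - 1)`, a
constant `c`, a start `k` and a solution `w` of the recurrence such that `w (a n + b) = bin n` for
all `n ≥ 0`, for some `a ≥ 1` and `b`. -/
theorem result : ∃ (p q : ℕ) (u : Fin p → ℕ) (v : Fin q → ℕ) (c k : ℕ) (w : ℕ → ℕ) (a b : ℕ),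
    (∀ i, 0 < u i) ∧ Function.Injective u ∧ (∀ j, 0 < v j) ∧ Function.Injective v ∧
    IsSolution u v c k w ∧ 0 < a ∧ ∀ n, w (a * n + b) = bin n := by
  refine ⟨5, 1, ![1, 5, 9, 13, 2], ![8], 0, 140, w, 4, 3, ?_, ?_, ?_, ?_, ⟨w_pos, w_rec⟩,
    by norm_num, w3⟩
  · decide
  · decide
  · decide
  · decide

end Pool.Agent.Results.MP_4e7634_nt.BinarySubsequence
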